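import Mathlib
import Pool.Agent.Helper27.MarkoffDefs
import Pool.Agent.Helper27.MarkoffExcDefs
import Pool.Agent.C86.F.Final
import Pool.Agent.C86.G.Concl
import Pool.Agent.C86.M.BInst

set_option autoImplicit false

namespace Pool.Agent.Results.MP_c86b5e_nt.FullAnswer

open Pool.Agent.Helper27

/-- The assertion of Q1 for the pair `(p, k)`: `M_k(F_p) \ E_k` is a single orbit. -/
def SingleOrbit (p : ℕ) [Fact p.Prime] (k : ZMod p) : Prop :=
  ∃ P ∈ markoffLevel (ZMod p) k, markoffLevel (ZMod p) k \ exceptionalSet (ZMod p) k =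
    MulAction.orbit (markoffGroup (ZMod p)) P

/-- The seven pairs `(3,0), (5,0), (5,1), (5,4), (7,0), (7,1), (11,1)`. -/
def Tiny (p : ℕ) (k : ZMod p) : Prop :=
  (p = 3 ∧ k = 0) ∨ (p = 5 ∧ (k = 0 ∨ k = 1 ∨ k = 4)) ∨ (p = 7 ∧ (k = 0 ∨ k = 1)) ∨
    (p = 11 ∧ k = 1)

/-- For every odd prime `p` and every `k ≠ ±2` in `F_p`, the set `M_k(F_p) \ E_k` is a single orbit
unless `(p, k)` is one of seven pairs, for which it is empty. -/
theorem result (p : ℕ) [Fact p.Prime] (hp : p ≠ 2) (k : ZMod p) (h2 : k ≠ 2) (h2' : k ≠ -2) :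
    (¬ Tiny p k → SingleOrbit p k) ∧
    (Tiny p k → markoffLevel (ZMod p) k \ exceptionalSet (ZMod p) k = ∅) := by
  have hI : 11 ≤ p → Pool.Agent.C86.F.Int2 p k := by
    intro _
    have hF : Nat.card (GaloisField p 2) = p ^ 2 := GaloisField.card p 2 (by norm_num)
    haveI : Finite (GaloisField p 2) := Nat.finite_of_card_ne_zero (by
      rw [hF]; exact pow_ne_zero _ (Fact.out : p.Prime).ne_zero)
    have HM : ∀ z : (GaloisField p 2)ˣ, orderOf z = p ^ 2 - 1 →
        Nonempty (Pool.Agent.C86.G.Machine p (GaloisField p 2) z) :=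
      fun z hz => Pool.Agent.C86.M.exists_machine p hp (GaloisField p 2) hF z hz
    exact Pool.Agent.C86.G.int2_of_machine hp hF (algebraMap (ZMod p) (GaloisField p 2)) HM k
  rcases Pool.Agent.C86.F.final hp h2 h2' hI with ⟨h3, h4⟩ | ⟨h3, h4⟩
  · exact ⟨fun _ => h4, fun h => absurd h h3⟩
  · exact ⟨fun h => absurd h3 h, fun _ => h4⟩

end Pool.Agent.Results.MP_c86b5e_nt.FullAnswer
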