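import Mathlib
import Pool.Agent.Helper27.MarkoffDefs
import Pool.Agent.Helper27.MarkoffSize

set_option autoImplicit false

namespace Pool.Agent.Results.MP_c86b5e_nt.OrbitSizeFormula

open Pool.Agent.Helper27

/-- Let `F` be any field (for the problem, `F = ZMod p`), `k ≠ 2`, and let `O` be a finite subset
of the level set `M_k(F)` that is stable under `Γ` (for instance a `Γ`-orbit when `F` is finite).
Then, in `F`, the number of elements of `O` equals the number of points of `O` with at least two
zero coordinates plus `(k + 2)²` times the sum of `1 / (x z)²` over the points `(x, 0, z)` of `O`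
with `x z ≠ 0`. In particular, if no point of `O` has a zero coordinate then the characteristic
of `F` divides the size of `O`. -/
theorem result (F : Type*) [Field F] [DecidableEq F] (k : F) (hk : k ≠ 2)
    (O : Finset (F × F × F)) (hlevel : ∀ P ∈ O, P ∈ markoffLevel F k)
    (hstable : ∀ g ∈ markoffGroup F, ∀ P ∈ O, g P ∈ O) :
    (O.card : F) =
      ((O.filter (fun P => (P.1 = 0 ∧ P.2.1 = 0) ∨ (P.1 = 0 ∧ P.2.2 = 0) ∨
        (P.2.1 = 0 ∧ P.2.2 = 0))).card : F) +
      (k + 2) ^ 2 * ∑ P ∈ O.filter (fun P => P.2.1 = 0 ∧ P.1 ≠ 0 ∧ P.2.2 ≠ 0),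
        ((P.1 * P.2.2) ^ 2)⁻¹ := by
  apply size_formula k hk O hlevel
  · exact hstable _ (Subgroup.subset_closure (by simp))
  · exact hstable _ (Subgroup.subset_closure (by simp))
  · exact hstable _ (Subgroup.subset_closure (by simp))

end Pool.Agent.Results.MP_c86b5e_nt.OrbitSizeFormula
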